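import Pool.Agent.Helper63.XP.StB

/-! Project XP (MP_c973ff_an), module NEX. -/

set_option autoImplicit false

namespace Pool.Agent.Helper45.XP

open Pool.Agent.Helper63.XP
open Pool.Agent.Helper63.XR (StNew)
open Finset WithLp
open scoped ENNReal

section

variable {n : Type} [Fintype n] [DecidableEq n]

theorem NEX_toReal {p : ℝ} (hp : 1 ≤ p) : (ENNReal.ofReal p).toReal = p :=
  ENNReal.toReal_ofReal (zero_le_one.trans hp)

theorem NEX_fact {p : ℝ} (hp : 1 ≤ p) : Fact (1 ≤ ENNReal.ofReal p) :=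
  ⟨by rw [← ENNReal.ofReal_one]; exact ENNReal.ofReal_le_ofReal hp⟩

theorem NEX_norm {p : ℝ} (hp : 1 ≤ p) [Fact (1 ≤ ENNReal.ofReal p)]
    (v : PiLp (ENNReal.ofReal p) (fun _ : n => ℂ)) : ‖v‖ ^ p = np p (ofLp v) := by
  have hp0 : 0 < p := lt_of_lt_of_le one_pos hp
  rw [PiLp.norm_eq_sum (by rw [NEX_toReal hp]; exact hp0), NEX_toReal hp]
  rw [← Real.rpow_mul (Finset.sum_nonneg fun i _ => Real.rpow_nonneg (norm_nonneg _) _), one_div,
    inv_mul_cancel₀ hp0.ne', Real.rpow_one]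
  rfl

/-- the operator of a matrix -/
noncomputable def NEXf (p : ℝ) [Fact (1 ≤ ENNReal.ofReal p)] (M : Matrix n n ℂ) :
    PiLp (ENNReal.ofReal p) (fun _ : n => ℂ) →L[ℂ] PiLp (ENNReal.ofReal p) (fun _ : n => ℂ) :=
  LinearMap.toContinuousLinearMap (Matrix.toLpLin (ENNReal.ofReal p) (ENNReal.ofReal p) M)

theorem NEXf_apply (p : ℝ) [Fact (1 ≤ ENNReal.ofReal p)] (M : Matrix n n ℂ)
    (v : PiLp (ENNReal.ofReal p) (fun _ : n => ℂ)) : ofLp (NEXf p M v) = M.mulVec (ofLp v) := rfl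

theorem NEX_le {p : ℝ} (hp : 1 ≤ p) [Fact (1 ≤ ENNReal.ofReal p)] {M : Matrix n n ℂ} {K : ℝ} (hK : 0 ≤ K)
    (h : OpLe p M K) : ‖NEXf p M‖ ≤ K := by
  have hp0 : 0 < p := lt_of_lt_of_le one_pos hp
  refine ContinuousLinearMap.opNorm_le_bound _ hK fun v => ?_
  rw [← Real.rpow_le_rpow_iff (norm_nonneg _) (mul_nonneg hK (norm_nonneg _)) hp0,
    Real.mul_rpow hK (norm_nonneg _), NEX_norm hp, NEX_norm hp, NEXf_apply]
  exact h _

theorem NEX_ge {p : ℝ} (hp : 1 ≤ p) [Fact (1 ≤ ENNReal.ofReal p)] {M : Matrix n n ℂ} {K : ℝ}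
    (h : ‖NEXf p M‖ ≤ K) : OpLe p M K := by
  have hp0 : 0 < p := lt_of_lt_of_le one_pos hp
  have hK : 0 ≤ K := (norm_nonneg _).trans h
  intro v
  have h1 := NEX_norm (n := n) hp (NEXf p M (toLp (ENNReal.ofReal p) v))
  have h2 := NEX_norm (n := n) hp (toLp (ENNReal.ofReal p) v)
  rw [NEXf_apply] at h1
  have e : ofLp (toLp (ENNReal.ofReal p) v) = v := rfl
  rw [e] at h1 h2
  rw [← h1, ← h2, ← Real.mul_rpow hK (norm_nonneg _)]
  refine Real.rpow_le_rpow (norm_nonneg _) ?_ hp0.le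
  exact (ContinuousLinearMap.le_opNorm _ _).trans (mul_le_mul_of_nonneg_right h (norm_nonneg _))

theorem NEX_abs {p : ℝ} {M : Matrix n n ℂ} {K : ℝ} (h : OpLe p M K) : OpLe p M |K| := by
  intro v
  refine (h v).trans (mul_le_mul_of_nonneg_right ?_ ?_)
  · exact (le_abs_self _).trans (Real.abs_rpow_le_abs_rpow _ _)
  · exact Finset.sum_nonneg fun i _ => Real.rpow_nonneg (norm_nonneg _) _

end

theorem hNEX : StNex := by
  intro hN p hp K
  haveI := NEX_fact hp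
  obtain ⟨K', δ, hδ, hR⟩ := hN |K|
  refine ⟨K', δ, hδ, ?_⟩
  intro n _ _ x y z hx hy hz hxyz hidem
  have hmul : ∀ a b : Matrix n n ℂ, NEXf p (a * b) = NEXf p a * NEXf p b := by
    intro a b
    apply ContinuousLinearMap.ext
    intro v
    apply ofLp_injective
    rw [NEXf_apply, ContinuousLinearMap.mul_apply, NEXf_apply, NEXf_apply, Matrix.mulVec_mulVec]
  have hone : NEXf p (1 : Matrix n n ℂ) = 1 := by
    apply ContinuousLinearMap.ext
    intro v
    apply ofLp_injective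
    rw [NEXf_apply, Matrix.one_mulVec]
    rfl
  have hsub : ∀ a b : Matrix n n ℂ, NEXf p (a - b) = NEXf p a - NEXf p b := by
    intro a b
    unfold NEXf
    rw [map_sub, map_sub]
  have hadd : ∀ a b : Matrix n n ℂ, NEXf p (a + b) = NEXf p a + NEXf p b := by
    intro a b
    unfold NEXf
    rw [map_add, map_add]
  have hinj : Function.Injective (NEXf (n := n) p) := by
    intro a b hab
    unfold NEXf at hab
    exact (Matrix.toLpLin (ENNReal.ofReal p) (ENNReal.ofReal p)).injective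
      (LinearMap.toContinuousLinearMap.injective hab)
  have hsur : ∀ c, ∃ a : Matrix n n ℂ, NEXf p a = c := by
    intro c
    refine ⟨(Matrix.toLpLin (ENNReal.ofReal p) (ENNReal.ofReal p)).symm
      (LinearMap.toContinuousLinearMap.symm c), ?_⟩
    unfold NEXf
    rw [LinearEquiv.apply_symm_apply, LinearEquiv.apply_symm_apply]
  obtain ⟨y', z', k1, k2, k3, k4⟩ := hR
    (PiLp (ENNReal.ofReal p) (fun _ : n => ℂ) →L[ℂ] PiLp (ENNReal.ofReal p) (fun _ : n => ℂ))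
    ContinuousLinearMap.norm_id_le (NEXf p x) (NEXf p y) (NEXf p z)
    (NEX_le hp (abs_nonneg K) (NEX_abs hx)) (NEX_le hp (abs_nonneg K) (NEX_abs hy))
    (NEX_le hp (abs_nonneg K) (NEX_abs hz))
    (by rw [← hone, ← hsub, ← hmul, ← hmul, ← hadd, hxyz])
    (by rw [← hmul, ← hmul, ← hsub]; exact NEX_le hp hδ.le hidem)
  obtain ⟨y'', rfl⟩ := hsur y'
  obtain ⟨z'', rfl⟩ := hsur z'
  refine ⟨y'', z'', NEX_ge hp k1, NEX_ge hp k2, ?_, ?_⟩
  · apply hinj
    rw [hmul, hmul]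
    exact k3
  · apply hinj
    rw [hsub, hmul, hmul, hsub, hone]
    exact k4

end Pool.Agent.Helper45.XP
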